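import Pool.Agent.W722.PO.Stm2

set_option autoImplicit false

/-! Path odd-covers, third stage: at most n/2 + 18 paths for every graph. Exact statements.
Vertices, paths, cycles, pm, cm, psum, csum, par, Star, Cov as in Pool.Agent.W722.PO. -/

namespace Pool.Agent.J4H51.PC

open Pool.Agent.W722.PO

/-- an edge of C outside D and an edge of D outside C: sum of two paths
P = C - xx' + x'y + yy', Q = D - yy' + yx' + x'x -/
def S_E2 : Prop := ∀ C D : List ℕ, IsC C → IsC D → ¬ Cov D C → ¬ Cov C D →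
  ∃ P Q : List ℕ, IsP P ∧ IsP Q ∧ (∀ v ∈ P, v ∈ C ∨ v ∈ D) ∧ (∀ v ∈ Q, v ∈ C ∨ v ∈ D) ∧
    par (cm C) + par (cm D) = par (pm P) + par (pm Q)

/-- what is left after the conversion of pairs -/
def Star2 (C D : List ℕ) : Prop := Star C D ∧ (Cov C D ∨ Cov D C)

/-- removing pairs (as PAIRS, but modulo 2) -/
def S_PRS : Prop := ∀ Cs : List (List ℕ), (∀ C ∈ Cs, IsC C) →
  ∃ Ps Cs' : List (List ℕ), (∀ p ∈ Ps, IsP p) ∧ Cs'.Sublist Cs ∧
    Ps.length + Cs'.length = Cs.length ∧ par (csum Cs) = par (psum Ps) + par (csum Cs') ∧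
    (∀ p ∈ Ps, ∀ v ∈ p, ∃ c ∈ Cs, v ∈ c) ∧ Cs'.Pairwise (fun C D => Star2 C D)

/-- a family of edge-disjoint cycles through v, pairwise Star: one of them is long
(as DEGR, counting the diagonal twice) -/
def S_DEG : Prop := ∀ (l v : ℕ) (Cs : List (List ℕ)), (∀ C ∈ Cs, IsC C) → (csum Cs).Nodup →
  Cs.Pairwise (fun C D => Star C D) → (∀ C ∈ Cs, v ∈ C ∧ C.length ≤ l) → Cs ≠ [] →
  Cs.length + 2 ≤ l

/-- few cycles of length at most l: take the shortest cycle, every other one contains at least half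
of its vertices, so some vertex of it lies in half of the cycles; then S_DEG -/
def S_CNT : Prop := ∀ (l : ℕ) (Cs : List (List ℕ)), (∀ C ∈ Cs, IsC C) → (csum Cs).Nodup →
  Cs.Pairwise (fun C D => Star2 C D) → (∀ C ∈ Cs, C.length ≤ l) → Cs ≠ [] →
  Cs.length + 5 ≤ 2 * l

/-- the buffer path B (its last vertex b is the active end) is ready for the cycle C -/
def Rdy (B C : List ℕ) : Prop :=
  ∃ b, B.getLast? = some b ∧ (b ∉ C ∨ ∃ p, s(b, p) ∈ cm C ∧ p ∉ B)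

/-- one step: the buffer absorbs C and is ready for D. b on C: X = b p z z', P = C + X, B' = B + X,
p a neighbour of b outside B, z z' an edge of C outside B, z' between z and p on the path C - bp;
b not on C: X = b x x', x x' an edge of C outside B. The free choice of z' (x') makes B' ready:
at most 3|B| - 1 bad choices. -/
def S_STP : Prop := ∀ B C D : List ℕ, IsP B → IsC C → IsC D → (cm C + cm D).Nodup → Rdy B C →
  3 * B.length + 3 ≤ C.length →
  ∃ P B' : List ℕ, IsP P ∧ IsP B' ∧ (∀ v ∈ P, v ∈ B ∨ v ∈ C) ∧ (∀ v ∈ B', v ∈ B ∨ v ∈ C) ∧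
    B'.length ≤ B.length + 3 ∧ par (cm C) + par (pm B) = par (pm P) + par (pm B') ∧ Rdy B' D

/-- the first step: C = (C - bp) + bp -/
def S_STA : Prop := ∀ C D : List ℕ, IsC C → IsC D →
  ∃ P B' : List ℕ, IsP P ∧ IsP B' ∧ (∀ v ∈ P, v ∈ C) ∧ (∀ v ∈ B', v ∈ C) ∧
    B'.length = 2 ∧ par (cm C) = par (pm P) + par (pm B') ∧ Rdy B' D

/-- one buffer for a family with linearly growing lengths -/
def S_ONE : Prop := ∀ Cs : List (List ℕ), (∀ C ∈ Cs, IsC C) → (csum Cs).Nodup →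
  (∀ (k : ℕ) (C : List ℕ), Cs[k]? = some C → 9 * k ≤ C.length) →
  ∃ Ps : List (List ℕ), (∀ p ∈ Ps, IsP p) ∧ Ps.length ≤ Cs.length + 1 ∧
    (∀ p ∈ Ps, ∀ v ∈ p, ∃ c ∈ Cs, v ∈ c) ∧ par (csum Cs) = par (psum Ps)

/-- eighteen buffers: sort by length, the classes of the index modulo 18 -/
def S_ALL : Prop := ∀ Cs : List (List ℕ), (∀ C ∈ Cs, IsC C) → (csum Cs).Nodup →
  Cs.Pairwise (fun C D => Star2 C D) →
  ∃ Ps : List (List ℕ), (∀ p ∈ Ps, IsP p) ∧ Ps.length ≤ Cs.length + 18 ∧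
    (∀ p ∈ Ps, ∀ v ∈ p, ∃ c ∈ Cs, v ∈ c) ∧ par (csum Cs) = par (psum Ps)

/-- the theorem -/
def S_MAIN : Prop := ∀ (n : ℕ) (G : SimpleGraph (Fin n)),
  ∃ (k : ℕ) (u v : Fin k → Fin n)
    (P : ∀ i : Fin k, (⊤ : SimpleGraph (Fin n)).Walk (u i) (v i)),
    k ≤ n / 2 + 18 ∧
    (∀ i : Fin k, (P i).IsPath) ∧
    ∀ a b : Fin n, a ≠ b →
      (G.Adj a b ↔
        Odd ((Finset.univ.filter (fun i : Fin k => s(a, b) ∈ (P i).edges)).card))

end Pool.Agent.J4H51.PC
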